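import Pool.Agent.Q41.SP.Stm2
import Pool.Agent.Q241.SU.L4

/-!
# Job SP-L3: the local theorem in any characteristic (adapted from Q241/SU/L4.lean)
-/

namespace Pool.Agent.Q149.SP

open Finset Polynomial
open Pool.Agent.W277.UH (q₀ wd vm gmK giK wd_gmK)
open Pool.Agent.Q41.SU Pool.Agent.Q41.SP Pool.Agent.Q241.SU

universe u

/-- **SP-L3.** -/
theorem t_L3 : S_lvP.{u} → S_resc.{u} → S_e2P → S_locP.{u} := by
  classical
  intro hlv hresc he2 d hd
  obtain ⟨N₁, c', η, hc'0, hc'1, hη, hE⟩ := he2 d hd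
  refine ⟨N₁, c', η, hc'0, hc'1, hη, ?_⟩
  intro k K Ω _ _ _ _ _ _ _ _ hconst j e u hpl p q hp hq hco P hP a ha
  have hinf : Infinite k := IsAlgClosed.instInfinite
  have he0 : (0 : ℝ) < (e : ℝ) := by
    have := hpl.he
    exact_mod_cast this
  obtain ⟨Ω', _, _, _, f, hf⟩ := hresc Ω (e : ℝ) he0
  set ι : K →+* Ω' := (f : Ω →+* Ω').comp (j : K →+* Ω) with hι
  have hιx : ∀ x, ‖ι x‖ = ‖j x‖ ^ (e : ℝ) := by
    intro x
    exact hf (j x)
  have hle : ∀ x, ‖ι x‖ ≤ 1 → ‖j x‖ ≤ 1 := by
    intro x h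
    rw [hιx] at h
    by_contra hne
    push Not at hne
    have := Real.one_lt_rpow hne he0
    linarith
  have hnm : Nm (k := k) ι u := by
    constructor
    · intro x hx
      rw [hιx, hpl.norm x hx, ← Real.exp_mul]
      congr 1
      field_simp
    · intro c hc
      rw [hιx, AlgHom.commutes, hconst c hc, Real.one_rpow]
  let _ : Algebra k Ω' := (ι.comp (algebraMap k K)).toAlgebra
  obtain ⟨U, V, s, R, t, X, A, hUV, hs, hR, hX, hAb, hEn, hC⟩ :=
    hlv k Ω' K (fun c hc => hnm.const c hc) ι (fun _ => rfl) u hnm.norm d hd p q hp hq hco P hP a ha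
  have hdR : (2 : ℝ) ≤ d := by exact_mod_cast hd
  have hd1 : (0 : ℝ) < (d : ℝ) - 1 := by linarith
  -- orders of products
  have hmul : ∀ x y : K, x ≠ 0 → y ≠ 0 → (u (x * y) : ℝ) = u x + u y := by
    intro x y hx hy
    rw [← hnm.log (mul_ne_zero hx hy), ← hnm.log hx, ← hnm.log hy, map_mul, norm_mul,
      Real.log_mul (norm_ne_zero_iff.mpr ((map_ne_zero ι).mpr hx))
        (norm_ne_zero_iff.mpr ((map_ne_zero ι).mpr hy))]
    ring
  have hneg : ∀ x : K, x ≠ 0 → u (-x) = u x := by
    intro x hx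
    refine hnm.eq_of (neg_ne_zero.mpr hx) hx ?_
    rw [map_neg, norm_neg]
  have hwdne : ∀ z z' : K, z ≠ z' → wd (X z) (X z') ≠ 0 := by
    intro z z' hne h
    have h1 := wd_gmK U V (X z) (X z')
    rw [h, mul_zero] at h1
    have h2 : wd (t z • gmK U V (X z)) (t z' • gmK U V (X z')) = 0 := by
      have e : wd (t z • gmK U V (X z)) (t z' • gmK U V (X z')) =
          t z * t z' * wd (gmK U V (X z)) (gmK U V (X z')) := by
        unfold wd
        simp only [Prod.smul_fst, Prod.smul_snd, smul_eq_mul]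
        ring
      rw [e, h1, mul_zero]
    rw [(hX z).2.2.1, (hX z').2.2.1] at h2
    unfold wd at h2
    simp only [mul_one, one_mul] at h2
    exact hne (sub_eq_zero.mp h2)
  have hvm : ∀ z z' : K, wd (vm ι (X z)) (vm ι (X z')) = ι (wd (X z) (X z')) := by
    intro z z'
    unfold wd vm
    simp
  have hlogw : ∀ z z' : K, z ≠ z' → -Real.log ‖wd (vm ι (X z)) (vm ι (X z'))‖ =
      u (wd (X z) (X z')) := by
    intro z z' hne
    rw [hvm, hnm.log (hwdne z z' hne)]
  have hzz : ∀ z z' : K, z - z' = t z * t z' * (wd U V * wd (X z) (X z')) := by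
    intro z z'
    have h2 : wd (t z • gmK U V (X z)) (t z' • gmK U V (X z')) =
        t z * t z' * (wd U V * wd (X z) (X z')) := by
      rw [← wd_gmK]
      unfold wd
      simp only [Prod.smul_fst, Prod.smul_snd, smul_eq_mul]
      ring
    rw [(hX z).2.2.1, (hX z').2.2.1] at h2
    rw [← h2]
    unfold wd
    ring
  have hordzz : ∀ z z' : K, z ≠ z' → (u (z - z') : ℝ) =
      u (t z) + u (t z') + u (wd U V) + u (wd (X z) (X z')) := by
    intro z z' hne
    rw [hzz z z', hmul _ _ (mul_ne_zero (hX z).1 (hX z').1)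
      (mul_ne_zero hUV (hwdne z z' hne)), hmul _ _ (hX z).1 (hX z').1,
      hmul _ _ hUV (hwdne z z' hne)]
    ring
  have hgg : ∀ z z' : K, z ≠ z' → (u (wd (X z) (X z')) : ℝ) - A z - A z' +
      (R : ℝ) / (d * ((d : ℝ) - 1)) = gg u a d p q z z' := by
    intro z z' hne
    unfold gg
    rw [hordzz z z' hne, (hX z).2.2.2, (hX z').2.2.2, hR]
    ring
  have hgg' : ∀ z z' : K, z ≠ z' → -Real.log ‖wd (vm ι (X z)) (vm ι (X z'))‖ - A z - A z' +
      (R : ℝ) / (d * ((d : ℝ) - 1)) = gg u a d p q z z' := by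
    intro z z' hne
    rw [hlogw z z' hne, hgg z z' hne]
  -- the first Moebius map
  obtain ⟨c, hc⟩ := hnm.choose1 (P.image X) (by
    intro Y hY
    rw [Finset.mem_image] at hY
    obtain ⟨z, _, rfl⟩ := hY
    exact (hX z).2.1)
  set m₀ : Mb K := mb0 U V (algebraMap k K c) with hm₀
  have hdet0 : m₀.det ≠ 0 := by
    rw [hm₀, mb0_det]
    exact neg_ne_zero.mpr hUV
  have hD : ∀ z ∈ P, ‖ι ((X z).1 - algebraMap k K c * (X z).2)‖ = 1 := by
    intro z hz
    exact hc _ (Finset.mem_image_of_mem _ hz)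
  have hD0 : ∀ z ∈ P, (X z).1 - algebraMap k K c * (X z).2 ≠ 0 := by
    intro z hz h
    have := hD z hz
    rw [h, map_zero, norm_zero] at this
    exact zero_ne_one this
  have hden0 : ∀ z ∈ P, m₀.den z ≠ 0 := by
    intro z hz
    rw [hm₀, mb0_den (hX z).2.2.1]
    exact mul_ne_zero (mul_ne_zero (hX z).1 hUV) (hD0 z hz)
  have happ0 : ∀ z ∈ P, m₀.app z = (X z).2 / ((X z).1 - algebraMap k K c * (X z).2) := by
    intro z _
    exact mb0_app (hX z).2.2.1 (hX z).1 hUV
  have hint0 : ∀ z ∈ P, ‖ι (m₀.app z)‖ ≤ 1 := by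
    intro z hz
    rw [happ0 z hz, map_div₀, norm_div, hD z hz, div_one]
    have h6 := (hX z).2.1
    unfold vm at h6
    rw [Prod.norm_def] at h6
    exact (le_max_right _ _).trans h6.le
  have hdiff0 : ∀ z ∈ P, ∀ z' ∈ P, m₀.app z - m₀.app z' =
      -(wd (X z) (X z')) / (((X z).1 - algebraMap k K c * (X z).2) *
        ((X z').1 - algebraMap k K c * (X z').2)) := by
    intro z hz z' hz'
    rw [happ0 z hz, happ0 z' hz', div_sub_div _ _ (hD0 z hz) (hD0 z' hz')]
    congr 1
    unfold wd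
    ring
  have hne0 : ∀ z ∈ P, ∀ z' ∈ P, z ≠ z' → m₀.app z - m₀.app z' ≠ 0 := by
    intro z hz z' hz' hne
    rw [hdiff0 z hz z' hz']
    exact div_ne_zero (neg_ne_zero.mpr (hwdne z z' hne)) (mul_ne_zero (hD0 z hz) (hD0 z' hz'))
  have hu0 : ∀ z ∈ P, ∀ z' ∈ P, z ≠ z' → u (m₀.app z - m₀.app z') = u (wd (X z) (X z')) := by
    intro z hz z' hz' hne
    refine hnm.eq_of (hne0 z hz z' hz' hne) (hwdne z z' hne) ?_
    rw [hdiff0 z hz z' hz', map_div₀, norm_div, map_mul, norm_mul, hD z hz, hD z' hz', mul_one,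
      div_one, map_neg, norm_neg]
  have hTr : ∀ (J : Type) [Fintype J] [DecidableEq J] (x : J → K), Function.Injective x →
        (∀ l, x l ∈ P) → ∀ n : ℕ, (d : ℝ) ^ (2 * n) ≤ Fintype.card J →
        -(4 * (Fintype.card J : ℝ) ^ 2 * R / (d : ℝ) ^ n) ≤
          ∑ l, ∑ m ∈ univ.erase l, (min (u (wd (X (x l)) (X (x m))) : ℝ) ((d : ℝ) ^ n * R) -
            A (x l) - A (x m) + R / (d * ((d : ℝ) - 1))) := by
    intro J _ _ x hinj hxP n hn
    have hcard : (univ.image x).card = Fintype.card J := by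
      rw [Finset.card_image_of_injective _ hinj, Finset.card_univ]
    have hsub : univ.image x ⊆ P := by
      intro z hz
      rw [Finset.mem_image] at hz
      obtain ⟨l, _, rfl⟩ := hz
      exact hxP l
    have h1 := hEn (univ.image x) hsub n (by rw [hcard]; exact hn)
    rw [hcard] at h1
    refine h1.trans (le_of_eq ?_)
    rw [Finset.sum_image (fun _ _ _ _ h => hinj h)]
    apply Finset.sum_congr rfl
    intro l _
    rw [Finset.sum_image (fun _ _ _ _ h => hinj h),
      ← Finset.add_sum_erase _ _ (Finset.mem_univ l), if_pos rfl, zero_add]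
    apply Finset.sum_congr rfl
    intro m hm
    have hne : x l ≠ x m := fun h => (Finset.ne_of_mem_erase hm) (hinj h).symm
    rw [if_neg hne, hlogw _ _ hne]
  refine ⟨R, ?_, ?_, ?_⟩
  · -- energy
    intro J _ _ x hinj hxP n hn
    refine (hTr J x hinj hxP n hn).trans ?_
    refine Finset.sum_le_sum fun l _ => Finset.sum_le_sum fun m hm => ?_
    have hne : x l ≠ x m := fun h => (Finset.ne_of_mem_erase hm) (hinj h).symm
    rw [← hgg _ _ hne]
    have := min_le_left (u (wd (X (x l)) (X (x m))) : ℝ) ((d : ℝ) ^ n * R)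
    linarith
  · -- good reduction
    intro hR0
    refine ⟨m₀, hdet0, fun z hz => ⟨hden0 z hz, hle _ (hint0 z hz)⟩, ?_⟩
    intro z hz z' hz' hne
    rw [hu0 z hz z' hz' hne, ← hgg z z' hne]
    have h1 := hAb z hz
    have h2 := hAb z' hz'
    rw [hR0, Nat.cast_zero, zero_div] at h1 h2
    rw [hR0, Nat.cast_zero, zero_div, le_antisymm h1.2 h1.1, le_antisymm h2.2 h2.1]
    ring
  · intro J _ _ x hinj hxP hN
    set o : J → J → ℤ := fun l m => u (m₀.app (x l) - m₀.app (x m)) with ho
    have hxne : ∀ l m, l ≠ m → x l ≠ x m := fun l m h h' => h (hinj h')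
    have hone : ∀ l m, l ≠ m → m₀.app (x l) - m₀.app (x m) ≠ 0 := fun l m h =>
      hne0 _ (hxP l) _ (hxP m) (hxne l m h)
    have hosymm : ∀ l m, o l m = o m l := by
      intro l m
      by_cases h : l = m
      · rw [h]
      · rw [ho]
        simp only
        rw [← hneg _ (hone m l (Ne.symm h)), neg_sub]
    have ho0 : ∀ l m, l ≠ m → 0 ≤ o l m := by
      intro l m h
      apply hnm.nonneg (hone l m h)
      rw [map_sub]
      exact (ns _ _).trans (max_le (hint0 _ (hxP l)) (hint0 _ (hxP m)))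
    have hexp : ∀ y : K, y ≠ 0 → ∀ r : ℤ, (r : ℝ) ≤ u y ↔ ‖ι y‖ ≤ Real.exp (-(r : ℝ)) := by
      intro y hy r
      rw [hnm.norm y hy, Real.exp_le_exp]
      constructor <;> intro h <;> linarith
    have hultra : ∀ l m n, l ≠ m → m ≠ n → l ≠ n → min (o l m) (o m n) ≤ o l n := by
      intro l m n h1 h2 h3
      have h4 : ((min (o l m) (o m n) : ℤ) : ℝ) ≤ ((o l n : ℤ) : ℝ) := by
        rw [ho]
        simp only
        rw [hexp _ (hone l n h3)]
        have e : m₀.app (x l) - m₀.app (x n) =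
            (m₀.app (x l) - m₀.app (x m)) + (m₀.app (x m) - m₀.app (x n)) := by ring
        rw [e, map_add]
        refine (IsUltrametricDist.norm_add_le_max _ _).trans (max_le ?_ ?_)
        · rw [← hexp _ (hone l m h1)]
          exact_mod_cast min_le_left _ _
        · rw [← hexp _ (hone m n h2)]
          exact_mod_cast min_le_right _ _
      exact_mod_cast h4
    have hq0 : 0 < q₀ d := by
      unfold q₀
      positivity
    obtain ⟨χ, hχ⟩ : ∃ χ : J → Fin (q₀ d), 1 ≤ R → ∀ l m, l ≠ m → χ l = χ m →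
        (R : ℝ) / (8 * d * (d + 1)) ≤ o l m - 2 * A (x l) + (R : ℝ) / (d * ((d : ℝ) - 1)) := by
      by_cases hR1 : 1 ≤ R
      · obtain ⟨χ, hχ⟩ := hC hR1
        refine ⟨fun l => χ (x l), fun _ l m hlm h => ?_⟩
        have h1 := hχ _ (hxP l) _ (hxP m) (hxne l m hlm) h
        rw [hlogw _ _ (hxne l m hlm)] at h1
        rw [ho]
        simp only
        rw [hu0 _ (hxP l) _ (hxP m) (hxne l m hlm)]
        exact h1
      · exact ⟨fun _ => ⟨0, hq0⟩, fun h => absurd h hR1⟩
    obtain ⟨h, l₀, hb0, hb1, hb2, hb3⟩ := hE J o hosymm ho0 hultra (fun l => A (x l)) R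
      (fun l => hAb _ (hxP l)) χ hχ hN
    obtain ⟨π, hπ0, hπ1⟩ := hpl.unif
    have hϖ0 : π ^ h ≠ 0 := pow_ne_zero _ hπ0
    have hϖn : ‖ι (π ^ h)‖ = Real.exp (-(h : ℝ)) := by
      rw [map_pow, norm_pow, hnm.norm π hπ0, hπ1, ← Real.exp_nat_mul]
      congr 1
      push_cast
      ring
    -- the second constant
    set w : J → K := fun l => (m₀.app (x l) - m₀.app (x l₀)) / π ^ h with hw
    obtain ⟨c₂, hc₂⟩ := hnm.choose2 (univ.image w)
    have hc2 : ∀ l, ‖ι (w l - algebraMap k K c₂)‖ = max 1 ‖ι (w l)‖ := fun l =>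
      hc₂ _ (Finset.mem_image_of_mem _ (Finset.mem_univ l))
    have hwc : ∀ l, w l - algebraMap k K c₂ ≠ 0 := by
      intro l h'
      have := hc2 l
      rw [h', map_zero, norm_zero] at this
      have h3 := le_max_left (1 : ℝ) ‖ι (w l)‖
      linarith
    set κ : K := m₀.app (x l₀) + algebraMap k K c₂ * π ^ h with hκ
    have hκw : ∀ l, m₀.app (x l) - κ = π ^ h * (w l - algebraMap k K c₂) := by
      intro l
      rw [hκ, hw]
      simp only
      field_simp
      ring
    set m₁ : Mb K := mb1 m₀ (π ^ h) κ with hm₁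
    have happ1 : ∀ l, m₁.app (x l) = 1 / (w l - algebraMap k K c₂) := by
      intro l
      rw [hm₁, mb1_app _ _ _ _ (hden0 _ (hxP l)), hκw l]
      have := hwc l
      field_simp
    -- the orders
    set τ : J → ℤ := fun l => if l = l₀ then (h : ℤ) else min (h : ℤ) (o l l₀) with hτ
    have hwlog : ∀ l, -Real.log ‖ι (w l - algebraMap k K c₂)‖ = (τ l : ℝ) - h := by
      intro l
      rw [hc2 l, hτ]
      simp only
      by_cases hl : l = l₀
      · rw [if_pos hl]
        have : w l = 0 := by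
          rw [hw, hl]
          simp
        rw [this, map_zero, norm_zero, max_eq_left zero_le_one, Real.log_one]
        push_cast
        ring
      · rw [if_neg hl]
        have hwn : ‖ι (w l)‖ = Real.exp ((h : ℝ) - o l l₀) := by
          rw [hw]
          simp only
          rw [map_div₀, norm_div, hϖn, hnm.norm _ (hone l l₀ hl), ← Real.exp_sub]
          congr 1
          rw [ho]
          ring
        rw [hwn]
        by_cases hle' : (h : ℤ) ≤ o l l₀
        · have h1 : (h : ℝ) ≤ o l l₀ := by exact_mod_cast hle'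
          rw [min_eq_left hle', max_eq_left, Real.log_one]
          · push_cast
            ring
          · rw [← Real.exp_zero, Real.exp_le_exp]
            linarith
        · push Not at hle'
          have h1 : (o l l₀ : ℝ) < h := by exact_mod_cast hle'
          rw [min_eq_right hle'.le, max_eq_right, Real.log_exp]
          · ring
          · rw [← Real.exp_zero, Real.exp_le_exp]
            linarith
    have hdiff1 : ∀ l m, m₁.app (x l) - m₁.app (x m) =
        -(m₀.app (x l) - m₀.app (x m)) / (π ^ h * ((w l - algebraMap k K c₂) *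
          (w m - algebraMap k K c₂))) := by
      intro l m
      rw [happ1, happ1, div_sub_div _ _ (hwc l) (hwc m)]
      have e : 1 * (w m - algebraMap k K c₂) - (w l - algebraMap k K c₂) * 1 =
          -(m₀.app (x l) - m₀.app (x m)) / π ^ h := by
        rw [hw]
        simp only
        field_simp
        ring
      rw [e, div_div]
    have hne1 : ∀ l m, l ≠ m → m₁.app (x l) - m₁.app (x m) ≠ 0 := by
      intro l m hlm
      rw [hdiff1]
      exact div_ne_zero (neg_ne_zero.mpr (hone l m hlm))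
        (mul_ne_zero hϖ0 (mul_ne_zero (hwc l) (hwc m)))
    have hu1 : ∀ l m, l ≠ m → u (m₁.app (x l) - m₁.app (x m)) = blow o h l₀ l m := by
      intro l m hlm
      have h1 : (u (m₁.app (x l) - m₁.app (x m)) : ℝ) = (blow o h l₀ l m : ℤ) := by
        rw [← hnm.log (hne1 l m hlm), hdiff1, map_div₀, norm_div, map_neg, norm_neg, map_mul,
          norm_mul, map_mul, norm_mul]
        have n0 : ‖ι (m₀.app (x l) - m₀.app (x m))‖ ≠ 0 :=
          norm_ne_zero_iff.mpr ((map_ne_zero ι).mpr (hone l m hlm))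
        have n1 : ‖ι (π ^ h)‖ ≠ 0 := norm_ne_zero_iff.mpr ((map_ne_zero ι).mpr hϖ0)
        have n2 : ‖ι (w l - algebraMap k K c₂)‖ ≠ 0 :=
          norm_ne_zero_iff.mpr ((map_ne_zero ι).mpr (hwc l))
        have n3 : ‖ι (w m - algebraMap k K c₂)‖ ≠ 0 :=
          norm_ne_zero_iff.mpr ((map_ne_zero ι).mpr (hwc m))
        rw [Real.log_div n0 (mul_ne_zero n1 (mul_ne_zero n2 n3)),
          Real.log_mul n1 (mul_ne_zero n2 n3), Real.log_mul n2 n3, hϖn, Real.log_exp]
        have g0 := hnm.log (hone l m hlm)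
        have g2 := hwlog l
        have g3 := hwlog m
        have gb : ((blow o h l₀ l m : ℤ) : ℝ) = o l m + h - τ l - τ m := by
          unfold blow
          rw [hτ]
          push_cast
          ring
        rw [gb]
        have go : (o l m : ℝ) = u (m₀.app (x l) - m₀.app (x m)) := rfl
        rw [go]
        linarith
      exact_mod_cast h1
    have hsum : ∑ l, ∑ m ∈ univ.erase l, ((o l m : ℝ) - A (x l) - A (x m) +
        R / (d * ((d : ℝ) - 1))) = ∑ l, ∑ l' ∈ univ.erase l, gg u a d p q (x l) (x l') := by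
      apply Finset.sum_congr rfl
      intro l _
      apply Finset.sum_congr rfl
      intro m hm
      have hlm : l ≠ m := Ne.symm (Finset.ne_of_mem_erase hm)
      rw [← hgg _ _ (hxne l m hlm), ← hu0 _ (hxP l) _ (hxP m) (hxne l m hlm)]
    have hsb : ∑ l, ∑ m ∈ univ.erase l, (u (m₁.app (x l) - m₁.app (x m)) : ℝ) =
        ∑ l, ∑ m ∈ univ.erase l, (blow o h l₀ l m : ℝ) := by
      apply Finset.sum_congr rfl
      intro l _
      apply Finset.sum_congr rfl
      intro m hm
      have hlm : l ≠ m := Ne.symm (Finset.ne_of_mem_erase hm)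
      rw [hu1 l m hlm]
    refine ⟨m₁, ?_, ?_, ?_, ?_, ?_⟩
    · rw [hm₁, mb1_det]
      exact neg_ne_zero.mpr (mul_ne_zero hϖ0 hdet0)
    · intro l
      refine ⟨?_, hle _ ?_⟩
      · rw [hm₁, mb1_den _ _ _ _ (hden0 _ (hxP l)), hκw l]
        exact mul_ne_zero (hden0 _ (hxP l)) (mul_ne_zero hϖ0 (hwc l))
      · rw [happ1, map_div₀, map_one, norm_div, norm_one, hc2 l]
        have h3 := le_max_left (1 : ℝ) ‖ι (w l)‖
        rw [div_le_one (by linarith)]
        exact h3
    · intro l
      have h1 := hb1 l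
      rwa [cnt_congr (o' := blow o h l₀) 1 l (fun m hm => hu1 l m (Ne.symm hm))]
    · intro hR1 hG
      have h1 := hb2 hR1 (by rw [hsum]; exact hG)
      rw [hsb]
      exact h1
    · intro n hn
      have h1 := hb3 n (by
        refine (hTr J x hinj hxP n hn).trans (le_of_eq ?_)
        apply Finset.sum_congr rfl
        intro l _
        apply Finset.sum_congr rfl
        intro m hm
        have hlm : l ≠ m := Ne.symm (Finset.ne_of_mem_erase hm)
        rw [← hu0 _ (hxP l) _ (hxP m) (hxne l m hlm)])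
      rw [hsum] at h1
      refine (le_of_eq ?_).trans h1
      apply Finset.sum_congr rfl
      intro l _
      apply Finset.sum_congr rfl
      intro m hm
      have hlm : l ≠ m := Ne.symm (Finset.ne_of_mem_erase hm)
      rw [hu1 l m hlm]

end Pool.Agent.Q149.SP
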