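import Pool.Agent.Q149.SP.BC

/-!
# Job SP-N19: purity for separable maps
-/

set_option autoImplicit false

namespace Pool.Agent.Q149.SP

open Finset Polynomial
open Pool.Agent.Q41.SU Pool.Agent.Q41.SP

universe u

/-- the leading coefficient of the reduction -/
lemma red_lead {L : Type u} [Field L] {β q : ℕ} {G : (PowerSeries L)[X][X]} {a : L[X]}
    (h : red G = C a * (X - C (X ^ q)) ^ β) :
    (G.coeff β).map PowerSeries.constantCoeff = a := by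
  have h1 : (red G).coeff β = (G.coeff β).map PowerSeries.constantCoeff := by
    unfold red
    rw [Polynomial.coeff_map, coe_mapRingHom]
  rw [← h1, h, coeff_C_mul]
  have h2 : ((X - C (X ^ q : L[X])) ^ β).coeff β = 1 := by
    have h3 : ((X - C (X ^ q : L[X])) ^ β).Monic := (monic_X_sub_C _).pow β
    have h4 : ((X - C (X ^ q : L[X])) ^ β).natDegree = β := by
      rw [(monic_X_sub_C (X ^ q : L[X])).natDegree_pow, natDegree_X_sub_C, mul_one]
    have := h3.coeff_natDegree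
    rwa [h4] at this
  rw [h2, mul_one]

/-- the situation over an algebraically closed field -/
structure Sit (l r β D₀ H M' : ℕ) {L Λ : Type u} [Field L] [IsAlgClosed L] [Fact l.Prime]
    [CharP L l] [NormedField Λ] [IsUltrametricDist Λ] [IsAlgClosed Λ]
    (ψ : PowerSeries L →+* Λ) (P Q : L[X]) (P' Q' : (PowerSeries L)[X])
    (G Qt : (PowerSeries L)[X][X]) (A : (PowerSeries L)[X]) (a : L[X]) : Prop where
  ps : IsPs ψ
  rm : RM D₀ P Q
  w0 : wr P Q ≠ 0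
  lP : P'.map PowerSeries.constantCoeff = P.map (iterateFrobenius L l r)
  lQ : Q'.map PowerSeries.constantCoeff = Q.map (iterateFrobenius L l r)
  dg : Dg β H G
  a0 : a ≠ 0
  re : red G = C a * (X - C (X ^ l ^ r)) ^ β
  A0 : A.map PowerSeries.constantCoeff ≠ 0
  dv : Dv M' (C A * nv β H P Q P' Q' G - Qt * G)
  M1 : 1 ≤ M'

section

variable {l r β D₀ H M' : ℕ} {L Λ : Type u} [Field L] [IsAlgClosed L] [Fact l.Prime]
    [CharP L l] [NormedField Λ] [IsUltrametricDist Λ] [IsAlgClosed Λ]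
    {ψ : PowerSeries L →+* Λ} {P Q : L[X]} {P' Q' : (PowerSeries L)[X]}
    {G Qt : (PowerSeries L)[X][X]} {A : (PowerSeries L)[X]} {a : L[X]}

/-- the start -/
lemma Sit.start (s : Sit l r β D₀ H M' ψ P Q P' Q' G Qt A a) {z : L} (hz : a.eval z ≠ 0) :
    LM β M' G G z := by
  refine ⟨s.dg.1, ?_, ?_⟩
  · rw [red_lead s.re]; exact hz
  · intro i j
    simp

/-- one step forward -/
lemma Sit.fwd (s : Sit l r β D₀ H M' ψ P Q P' Q' G Qt A a) (hreg : S_regP.{u}) {y : L}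
    (hy : Q.eval y ≠ 0) {H' : (PowerSeries L)[X][X]} (hH : LM β M' G H' y) :
    ∃ H'' : (PowerSeries L)[X][X], LM β M' G H'' (P.eval y / Q.eval y) :=
  hreg l r β H M' L P Q P' Q' G Qt A a s.rm.co s.w0 s.lP s.lQ s.dg s.a0 s.re s.A0 s.dv y hy H' hH

/-- a path forward -/
lemma Sit.path (s : Sit l r β D₀ H M' ψ P Q P' Q' G Qt A a) (hreg : S_regP.{u}) (v : ℕ → L)
    (n : ℕ) (hv : ∀ i < n, Q.eval (v i) ≠ 0 ∧ v (i + 1) = P.eval (v i) / Q.eval (v i))
    (h0 : ∃ H', LM β M' G H' (v 0)) : ∀ i ≤ n, ∃ H', LM β M' G H' (v i) := by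
  intro i
  induction i with
  | zero => exact fun _ => h0
  | succ i ih =>
    intro hi
    obtain ⟨H', hH'⟩ := ih (by omega)
    obtain ⟨h1, h2⟩ := hv i (by omega)
    rw [h2]
    exact s.fwd hreg h1 hH'

/-- the roots -/
lemma Sit.roots (s : Sit l r β D₀ H M' ψ P Q P' Q' G Qt A a) (hlmr : S_lmrP.{u}) {y : L}
    {H' : (PowerSeries L)[X][X]} (hH : LM β M' G H' y) :
    ∃ (c : Λ) (w : Fin β → Λ), ‖c‖ = 1 ∧ gt ψ H' y = C c * ∏ j, (X - C (w j)) ∧
      ∀ j, ‖w j - ψ (PowerSeries.C y) ^ l ^ r‖ < 1 :=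
  hlmr l r β H M' L Λ ψ s.ps s.M1 G H' a s.dg s.a0 s.re y hH

omit [IsAlgClosed L] [Fact l.Prime] [CharP L l] [IsUltrametricDist Λ] [IsAlgClosed Λ] in
lemma eval_root {y : L} {H' : (PowerSeries L)[X][X]} {c : Λ} {w : Fin β → Λ}
    (h : gt ψ H' y = C c * ∏ j, (X - C (w j))) (j : Fin β) : (gt ψ H' y).eval (w j) = 0 := by
  rw [h, eval_mul, eval_prod, Finset.prod_eq_zero (mem_univ j) (by simp), mul_zero]

omit [IsAlgClosed L] [Fact l.Prime] [CharP L l] [IsUltrametricDist Λ] [IsAlgClosed Λ] in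
lemma norm_eval {y : L} {H' : (PowerSeries L)[X][X]} {c : Λ} {w : Fin β → Λ} (hc : ‖c‖ = 1)
    (h : gt ψ H' y = C c * ∏ j, (X - C (w j))) (x : Λ) :
    ‖(gt ψ H' y).eval x‖ = ∏ j, ‖x - w j‖ := by
  rw [h, eval_mul, eval_prod, eval_C, norm_mul, hc, one_mul, norm_prod]
  simp

/-- the images of the roots -/
lemma Sit.near (s : Sit l r β D₀ H M' ψ P Q P' Q' G Qt A a) (hclo : S_cloP.{u}) {y y' : L}
    (hy : Q.eval y ≠ 0) (hy' : y' = P.eval y / Q.eval y) {H' H'' : (PowerSeries L)[X][X]}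
    (hH : LM β M' G H' y) (hH' : LM β M' G H'' y') {c c' : Λ} {w w' : Fin β → Λ}
    (hw : gt ψ H' y = C c * ∏ j, (X - C (w j)))
    (hw1 : ∀ j, ‖w j - ψ (PowerSeries.C y) ^ l ^ r‖ < 1)
    (hc' : ‖c'‖ = 1) (hw' : gt ψ H'' y' = C c' * ∏ j, (X - C (w' j))) (j : Fin β) :
    ∏ j', ‖(P'.map ψ).eval (w j) / (Q'.map ψ).eval (w j) - w' j'‖ ≤ Real.exp (-(M' : ℝ)) := by
  subst hy'
  rw [← norm_eval hc' hw']
  exact hclo l r β H M' L Λ ψ P Q P' Q' G Qt A a s.ps s.rm.co s.w0 s.lP s.lQ s.dg s.a0 s.re s.A0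
    s.dv y hy H' H'' hH hH' (w j) (eval_root hw j) (hw1 j)

/-- the roots of the fibre are close -/
def Close (ψ : PowerSeries L →+* Λ) (ρ : ℝ) (H' : (PowerSeries L)[X][X]) (y : L) : Prop :=
  ∀ w w' : Λ, (gt ψ H' y).eval w = 0 → (gt ψ H' y).eval w' = 0 → ‖w - w'‖ ≤ ρ

omit [IsAlgClosed L] [Fact l.Prime] [CharP L l] [IsUltrametricDist Λ] [IsAlgClosed Λ] in
lemma close_of {ρ : ℝ} {y : L} {H' : (PowerSeries L)[X][X]} {c : Λ} {w : Fin β → Λ}
    (hc : ‖c‖ = 1) (h : gt ψ H' y = C c * ∏ j, (X - C (w j)))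
    (hw : ∀ j j', ‖w j - w j'‖ ≤ ρ) : Close ψ ρ H' y := by
  have h1 : ∀ x : Λ, (gt ψ H' y).eval x = 0 → ∃ j, x = w j := by
    intro x hx
    have h2 := norm_eval hc h x
    rw [hx, norm_zero] at h2
    obtain ⟨j, -, hj⟩ := Finset.prod_eq_zero_iff.1 h2.symm
    exact ⟨j, sub_eq_zero.1 (norm_eq_zero.1 hj)⟩
  intro x x' hx hx'
  obtain ⟨j, rfl⟩ := h1 x hx
  obtain ⟨j', rfl⟩ := h1 x' hx'
  exact hw j j'

end

/-- one step backward -/
lemma Sit.back {l r β D₀ H M' : ℕ} {E L Λ : Type u} [Field E] [Field L] [Algebra E L]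
    [IsAlgClosed L] [Fact l.Prime] [CharP E l]
    [CharP L l] [NormedField Λ] [IsUltrametricDist Λ] [IsAlgClosed Λ]
    {ψ : PowerSeries L →+* Λ} {P Q : E[X]} {P' Q' : (PowerSeries L)[X]}
    {G Qt : (PowerSeries L)[X][X]} {A : (PowerSeries L)[X]} {a : L[X]} (θ : E →+* Λ)
    (s : Sit l r β D₀ H M' ψ (P.map (algebraMap E L)) (Q.map (algebraMap E L)) P' Q' G Qt A a)
    (hPθ : P.map θ = P'.map ψ) (hQθ : Q.map θ = Q'.map ψ)
    (hκ : ∀ a : L, a ≠ 0 → ‖(ψ.comp PowerSeries.C) a‖ = 1)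
    (hθ : ∀ e : E, ‖θ e - (ψ.comp PowerSeries.C) (algebraMap E L e) ^ l ^ r‖ < 1)
    (hlmr : S_lmrP.{u}) (hclo : S_cloP.{u}) (htrf : S_trfP.{u}) {ρ : ℝ}
    (hρ : Real.exp (-((M' : ℝ) / β)) ≤ ρ) {y y' : L} (hy : aeval y Q ≠ 0)
    (hwy : aeval y (wr P Q) ≠ 0) (hy' : y' = aeval y P / aeval y Q)
    {H' H'' : (PowerSeries L)[X][X]} (hH : LM β M' G H' y) (hH' : LM β M' G H'' y')
    (hcl : Close ψ ρ H'' y') : Close ψ ρ H' y := by
  obtain ⟨c, w, hc, hw, hw1⟩ := s.roots hlmr hH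
  obtain ⟨c', w', hc', hw', hw1'⟩ := s.roots hlmr hH'
  refine close_of hc hw (htrf l β E L Λ r M' (ψ.comp PowerSeries.C) θ ρ hκ hθ P Q y y' hy hwy hy'
    w w' hw1 hw1' (fun j => ?_) hρ fun j j' => hcl _ _ (eval_root hw' j) (eval_root hw' j'))
  rw [hPθ, hQθ]
  refine s.near hclo ?_ ?_ hH hH' hw hw1 hc' hw' j
  · rwa [eval_map_algebraMap]
  · rw [eval_map_algebraMap, eval_map_algebraMap]; exact hy'

theorem t_N19 : S_psP.{u} → S_cycP.{u} → S_lmrP.{u} → S_regP.{u} → S_cloP.{u} → S_lcyP.{u} →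
    S_trfP.{u} → S_intP.{u} → S_ppsP.{u} := by
  classical
  intro hps hcyc hlmr hreg hclo hlcy htrf hint l D₀ t β₀ hl hD hβ₀
  obtain ⟨ℓ₀, hcyc⟩ := hcyc l D₀ hl hD
  obtain ⟨β, hβ⟩ : ∃ β, β = l ^ t * β₀ := ⟨_, rfl⟩
  have hβ1 : 1 ≤ β := by
    rw [hβ]
    exact Nat.one_le_iff_ne_zero.2 (Nat.mul_ne_zero (pow_ne_zero _ hl.ne_zero) (by omega))
  have hlc := fun ℓ : ℕ => fun hℓ : 1 ≤ ℓ => hlcy l D₀ β ℓ hl hD hβ1 hℓ
  choose κf hκf1 hκf using hlc
  let κg : ℕ → ℕ := fun ℓ => if h : 1 ≤ ℓ then κf ℓ h else 0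
  obtain ⟨κ₀, hκ₀⟩ : ∃ κ₀, κ₀ = β + ∑ ℓ ∈ range (ℓ₀ + 1), κg ℓ := ⟨_, rfl⟩
  have hκβ : β ≤ κ₀ := by omega
  have hκℓ : ∀ ℓ (h : 1 ≤ ℓ), ℓ ≤ ℓ₀ → κf ℓ h ≤ κ₀ := by
    intro ℓ h h2
    have h3 : κg ℓ ≤ ∑ ℓ ∈ range (ℓ₀ + 1), κg ℓ :=
      single_le_sum (f := κg) (fun _ _ => Nat.zero_le _) (mem_range.2 (by omega))
    have h4 : κg ℓ = κf ℓ h := by simp only [κg, dif_pos h]
    omega
  refine ⟨κ₀, by omega, ?_⟩
  intro k E _ _ _ _ _ τ D hτ r H M' P Q hPQ hwr G Qt A a hdg ha hred hA hdv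
  rw [← hβ] at hdg hred hdv
  by_cases hM0 : M' = 0
  · subst hM0
    intro i j
    simp
  have hM1 : 1 ≤ M' := by omega
  -- the algebraic closure
  let L := AlgebraicClosure E
  have hcharL : CharP L l := charP_of_injective_algebraMap (algebraMap E L).injective l
  obtain ⟨Λ, _, _, _, ψ, hψ⟩ := hps L
  let ι : E →+* L := algebraMap E L
  let φ : PowerSeries E →+* PowerSeries L := PowerSeries.map ι
  let θ : E →+* Λ := ψ.comp (φ.comp (tw l r τ))
  have hs : Sit l r β D₀ H M' ψ (P.map ι) (Q.map ι) ((P.map (tw l r τ)).map φ)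
      ((Q.map (tw l r τ)).map φ) (G.map (mapRingHom φ)) (Qt.map (mapRingHom φ)) (A.map φ)
      (a.map ι) := by
    refine ⟨hψ, ⟨hPQ.co.map (mapRingHom ι), ?_⟩, ?_, liftP_map ι hτ P, liftP_map ι hτ Q,
      dg_map ι hdg, ?_, ?_, ?_, ?_, hM1⟩
    · rw [natDegree_map, natDegree_map]; exact hPQ.deg
    · rw [wr_map]
      exact (Polynomial.map_ne_zero_iff ι.injective).2 hwr
    · exact (Polynomial.map_ne_zero_iff ι.injective).2 ha
    · rw [red_map, hred]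
      simp only [Polynomial.map_mul, Polynomial.map_pow, Polynomial.map_sub, Polynomial.map_C,
        Polynomial.map_X, coe_mapRingHom]
    · have h1 : (A.map φ).map PowerSeries.constantCoeff =
          (A.map PowerSeries.constantCoeff).map ι := by
        rw [Polynomial.map_map, Polynomial.map_map]
        congr 1
      rw [h1]
      exact (Polynomial.map_ne_zero_iff ι.injective).2 hA
    · have h1 := dv_map ι hdv
      rw [Polynomial.map_sub, Polynomial.map_mul, Polynomial.map_mul, nv_map, Polynomial.map_C] at h1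
      exact h1
  have hκn : ∀ a : L, a ≠ 0 → ‖(ψ.comp PowerSeries.C) a‖ = 1 := fun a ha => ps_const hψ a ha
  have hθn : ∀ e : E, ‖θ e - (ψ.comp PowerSeries.C) (algebraMap E L e) ^ l ^ r‖ < 1 := by
    intro e
    have h1 : θ e - (ψ.comp PowerSeries.C) (algebraMap E L e) ^ l ^ r =
        ψ (φ (tw l r τ e) - PowerSeries.C (ι e) ^ l ^ r) := by
      rw [map_sub, map_pow]; rfl
    rw [h1]
    refine ps_lt hψ _ ?_
    rw [map_sub, map_pow, PowerSeries.constantCoeff_C, lift_map ι hτ, sub_self]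
  have hPθ : P.map θ = ((P.map (tw l r τ)).map φ).map ψ := by
    rw [Polynomial.map_map, Polynomial.map_map]; rfl
  have hQθ : Q.map θ = ((Q.map (tw l r τ)).map φ).map ψ := by
    rw [Polynomial.map_map, Polynomial.map_map]; rfl
  -- the cycle
  obtain ⟨ℓ, y, T, hℓ1, hℓ0, hy, hyℓ, hT, hTp⟩ := hcyc L (P.map ι) (Q.map ι) hs.rm hs.w0
  obtain ⟨T', hT'⟩ : ∃ T' : Set L, T' = T \ ({z | (a.map ι).eval z = 0} ∪ {y 0}) := ⟨_, rfl⟩
  have hT'i : T'.Infinite := by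
    rw [hT']
    refine hT.sdiff (Set.Finite.union ?_ (Set.finite_singleton _))
    refine Set.Finite.subset ((a.map ι).roots.toFinset.finite_toSet) fun z hz => ?_
    rw [Finset.mem_coe, Multiset.mem_toFinset, mem_roots hs.a0]
    exact hz
  obtain ⟨z₀, hz₀⟩ := hT'i.nonempty
  rw [hT'] at hz₀
  -- models on the cycle
  obtain ⟨n₀, v₀, hv₀, hvn₀, hv₀s⟩ := hTp z₀ hz₀.1
  have hm0 : ∃ H', LM β M' (G.map (mapRingHom φ)) H' (y 0) := by
    have := hs.path hreg v₀ n₀ (fun i hi => ⟨(hv₀s i hi).1, (hv₀s i hi).2.2⟩)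
      ⟨_, by rw [hv₀]; exact hs.start (fun h => hz₀.2 (Or.inl h))⟩ n₀ le_rfl
    rwa [hvn₀] at this
  have hmi : ∀ i, ∃ H', LM β M' (G.map (mapRingHom φ)) H' (y i) := fun i =>
    hs.path hreg y i (fun j _ => hy j) hm0 i le_rfl
  choose Hm hHm using hmi
  have hrt : ∀ i, ∃ (c : Λ) (w : Fin β → Λ), ‖c‖ = 1 ∧ gt ψ (Hm i) (y i) = C c * ∏ j, (X - C (w j)) ∧
      ∀ j, ‖w j - ψ (PowerSeries.C (y i)) ^ l ^ r‖ < 1 := fun i => hs.roots hlmr (hHm i)
  choose c w hc hw hw1 using hrt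
  let W : ℕ → Fin β → Λ := fun i => if i = ℓ then w 0 else w i
  have hW0 : W 0 = w 0 := by
    simp only [W]
    rw [if_neg (by omega)]
  have hWℓ : W ℓ = W 0 := by
    rw [hW0]; simp only [W, if_true]
  have hWi : ∀ i < ℓ, W i = w i := fun i hi => by
    simp only [W]
    rw [if_neg (by omega)]
  have hWn : ∀ i j, ‖W i j - (ψ.comp PowerSeries.C) (y i) ^ l ^ r‖ < 1 := by
    intro i j
    simp only [W]
    by_cases h : i = ℓ
    · rw [if_pos h, h, hyℓ]; exact hw1 0 j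
    · rw [if_neg h]; exact hw1 i j
  have hWp : ∀ i < ℓ, ∀ j, ∏ j', ‖(P.map θ).eval (W i j) / (Q.map θ).eval (W i j) - W (i + 1) j'‖ ≤
      Real.exp (-(M' : ℝ)) := by
    intro i hi j
    rw [hPθ, hQθ, hWi i hi]
    by_cases h : i + 1 = ℓ
    · have e : W (i + 1) = w 0 := by simp only [W, if_pos h]
      rw [e]
      refine hs.near hclo (hy i).1 (y' := y 0) ?_ (hHm i) (hHm 0) (hw i) (hw1 i) (hc 0) (hw 0) j
      rw [← hyℓ, ← h]; exact (hy i).2
    · rw [hWi (i + 1) (by omega)]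
      exact hs.near hclo (hy i).1 (hy i).2 (hHm i) (hHm (i + 1)) (hw i) (hw1 i) (hc (i + 1))
        (hw (i + 1)) j
  have hcl0 := hκf ℓ hℓ1 E L Λ r M' (ψ.comp PowerSeries.C) θ hκn hθn P Q hPQ y W
    (fun i => by
      have := hy i
      rw [eval_map_algebraMap, eval_map_algebraMap] at this
      exact this) hyℓ hWℓ hWn hWp
  obtain ⟨ρ, hρ⟩ : ∃ ρ : ℝ, ρ = Real.exp (-((M' : ℝ) / κ₀)) := ⟨_, rfl⟩
  have hM'0 : (0 : ℝ) ≤ M' := Nat.cast_nonneg _
  have hβR : (0 : ℝ) < β := by exact_mod_cast hβ1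
  have hρβ : Real.exp (-((M' : ℝ) / β)) ≤ ρ := by
    rw [hρ, Real.exp_le_exp, neg_le_neg_iff]
    have : (β : ℝ) ≤ κ₀ := by exact_mod_cast hκβ
    exact div_le_div_of_nonneg_left hM'0 hβR this
  have hρℓ : Real.exp (-((M' : ℝ) / κf ℓ hℓ1)) ≤ ρ := by
    rw [hρ, Real.exp_le_exp, neg_le_neg_iff]
    have h1 : (κf ℓ hℓ1 : ℝ) ≤ κ₀ := by exact_mod_cast hκℓ ℓ hℓ1 hℓ0
    have h2 : (0 : ℝ) < κf ℓ hℓ1 := by exact_mod_cast hκf1 ℓ hℓ1
    exact div_le_div_of_nonneg_left hM'0 h2 h1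
  have hclose0 : Close ψ ρ (Hm 0) (y 0) := by
    refine close_of (hc 0) (hw 0) fun j j' => ?_
    have := hcl0 j j'
    rw [hW0] at this
    exact this.trans hρℓ
  -- backwards
  have hback : ∀ (n : ℕ) (v : ℕ → L), v n = y 0 → (∀ i < n, (Q.map ι).eval (v i) ≠ 0 ∧
      (wr (P.map ι) (Q.map ι)).eval (v i) ≠ 0 ∧ v (i + 1) = (P.map ι).eval (v i) /
        (Q.map ι).eval (v i)) → 1 ≤ n → ∀ H', LM β M' (G.map (mapRingHom φ)) H' (v 0) →
      Close ψ ρ H' (v 0) := by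
    intro n
    induction n with
    | zero => intro v _ _ h; omega
    | succ n ih =>
      intro v hvn hv _ H' hH'
      have h0 := hv 0 (by omega)
      have hstep : ∀ H'', LM β M' (G.map (mapRingHom φ)) H'' (v (0 + 1)) →
          Close ψ ρ H'' (v (0 + 1)) → Close ψ ρ H' (v 0) := by
        intro H'' hH'' hcl
        refine Sit.back θ hs hPθ hQθ hκn hθn hlmr hclo htrf hρβ ?_ ?_ ?_ hH' hH'' hcl
        · rw [← eval_map_algebraMap]; exact h0.1
        · rw [← eval_map_algebraMap, ← wr_map]; exact h0.2.1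
        · rw [← eval_map_algebraMap, ← eval_map_algebraMap]; exact h0.2.2
      by_cases hn : n = 0
      · subst hn
        have e : v (0 + 1) = y 0 := hvn
        refine hstep (Hm 0) ?_ ?_
        · rw [e]; exact hHm 0
        · rw [e]; exact hclose0
      · obtain ⟨H'', hH''⟩ := hs.fwd hreg h0.1 hH'
        rw [← h0.2.2] at hH''
        refine hstep H'' hH'' ?_
        exact ih (fun i => v (i + 1)) hvn (fun i hi => hv (i + 1) (by omega)) (by omega) H'' hH''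
  -- the end
  refine dv_of_map ι ?_
  rw [pp_map]
  refine hint l t β₀ H (M' / κ₀) L Λ ψ hψ hβ₀ _ T' (by rw [← hβ]; exact hs.dg) hT'i fun z hz => ?_
  rw [hT'] at hz
  rw [← hβ]
  refine ⟨?_, ?_⟩
  · rw [red_lead hs.re]
    exact fun h => hz.2 (Or.inl h)
  · obtain ⟨n, v, hv0, hvn, hv⟩ := hTp z hz.1
    have hn : 1 ≤ n := by
      by_contra hcon
      have : n = 0 := by omega
      subst this
      exact hz.2 (Or.inr (by rw [← hv0, hvn]; rfl))
    have hcl := hback n v hvn hv hn (G.map (mapRingHom φ))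
      (by rw [hv0]; exact hs.start (fun h => hz.2 (Or.inl h)))
    rw [hv0] at hcl
    intro x x' hx hx'
    refine (hcl x x' hx hx').trans ?_
    rw [hρ, Real.exp_le_exp, neg_le_neg_iff]
    exact Nat.cast_div_le

end Pool.Agent.Q149.SP
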