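import Pool.Agent.Q41.SP.Stm4

/-!
# Job SP-N19: base change to the algebraic closure
-/

set_option autoImplicit false

namespace Pool.Agent.Q149.SP

open Finset Polynomial
open Pool.Agent.Q41.SU Pool.Agent.Q41.SP

universe u

lemma wr_map {E L : Type*} [Field E] [Field L] (f : E →+* L) (P Q : E[X]) :
    wr (P.map f) (Q.map f) = (wr P Q).map f := by
  unfold wr
  rw [Polynomial.map_sub, Polynomial.map_mul, Polynomial.map_mul, Polynomial.derivative_map,
    Polynomial.derivative_map]

lemma hcr_map {A B : Type*} [CommRing A] [CommRing B] (f : A →+* B) (d : ℕ) (g u v : A[X]) :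
    (hcr d g u v).map f = hcr d (g.map f) (u.map f) (v.map f) := by
  unfold hcr
  rw [Polynomial.map_sum]
  refine Finset.sum_congr rfl fun i _ => ?_
  rw [Polynomial.map_mul, Polynomial.map_mul, Polynomial.map_pow, Polynomial.map_pow,
    Polynomial.map_C, Polynomial.coeff_map]

section

variable {E L : Type u} [Field E] [Field L] (ι : E →+* L)

lemma map_comp_C : (PowerSeries.map ι).comp (PowerSeries.C (R := E)) =
    (PowerSeries.C (R := L)).comp ι := by
  ext x : 1
  simp

lemma nv_map (β H : ℕ) (P Q : E[X]) (P' Q' : (PowerSeries E)[X]) (G : (PowerSeries E)[X][X]) :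
    (nv β H P Q P' Q' G).map (mapRingHom (PowerSeries.map ι)) =
      nv β H (P.map ι) (Q.map ι) (P'.map (PowerSeries.map ι)) (Q'.map (PowerSeries.map ι))
        (G.map (mapRingHom (PowerSeries.map ι))) := by
  have h1 : ∀ R : (PowerSeries E)[X], (R.map C).map (mapRingHom (PowerSeries.map ι)) =
      (R.map (PowerSeries.map ι)).map C := by
    intro R
    rw [Polynomial.map_map, Polynomial.map_map, Polynomial.mapRingHom_comp_C]
  have h2 : ∀ R : E[X], (R.map (PowerSeries.C)).map (PowerSeries.map ι) =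
      (R.map ι).map PowerSeries.C := by
    intro R
    rw [Polynomial.map_map, Polynomial.map_map, map_comp_C]
  unfold nv
  rw [Polynomial.map_sum]
  refine Finset.sum_congr rfl fun j _ => ?_
  rw [Polynomial.map_mul, Polynomial.map_mul, Polynomial.map_pow, Polynomial.map_pow,
    Polynomial.map_C, h1, h1, Polynomial.coeff_map, coe_mapRingHom, hcr_map, h2, h2]

lemma pp_map (l t β₀ : ℕ) (G : (PowerSeries E)[X][X]) :
    (pp l t β₀ G).map (mapRingHom (PowerSeries.map ι)) =
      pp l t β₀ (G.map (mapRingHom (PowerSeries.map ι))) := by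
  unfold pp
  simp only [Polynomial.map_sub, Polynomial.map_mul, Polynomial.map_pow, Polynomial.map_add,
    Polynomial.map_C, Polynomial.map_X, Polynomial.coeff_map, map_mul, map_pow, map_natCast,
    Polynomial.map_natCast]

lemma red_map (G : (PowerSeries E)[X][X]) :
    red (G.map (mapRingHom (PowerSeries.map ι))) = (red G).map (mapRingHom ι) := by
  unfold red
  rw [Polynomial.map_map, Polynomial.map_map]
  congr 1
  ext x : 2
  · simp only [RingHom.comp_apply, coe_mapRingHom, Polynomial.map_C]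
    congr 1
  · simp

lemma dg_map {β H : ℕ} {G : (PowerSeries E)[X][X]} (h : Dg β H G) :
    Dg β H (G.map (mapRingHom (PowerSeries.map ι))) := by
  refine ⟨(natDegree_map_le).trans h.1, fun i => ?_⟩
  rw [Polynomial.coeff_map]
  exact (natDegree_map_le).trans (h.2 i)

lemma dv_map {M : ℕ} {G : (PowerSeries E)[X][X]} (h : Dv M G) :
    Dv M (G.map (mapRingHom (PowerSeries.map ι))) := by
  intro i j
  rw [Polynomial.coeff_map, coe_mapRingHom, Polynomial.coeff_map]
  have := map_dvd (PowerSeries.map ι) (h i j)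
  simpa using this

lemma dv_of_map {M : ℕ} {G : (PowerSeries E)[X][X]}
    (h : Dv M (G.map (mapRingHom (PowerSeries.map ι)))) : Dv M G := by
  intro i j
  have h1 := h i j
  rw [Polynomial.coeff_map, coe_mapRingHom, Polynomial.coeff_map, PowerSeries.X_pow_dvd_iff] at h1
  rw [PowerSeries.X_pow_dvd_iff]
  intro m hm
  have h2 := h1 m hm
  rw [PowerSeries.coeff_map] at h2
  exact (map_eq_zero ι).1 h2

lemma lift_map {l r : ℕ} {k : Type u} [Field k] [Algebra k E] [ExpChar E l] [ExpChar L l]
    {τ : E →ₐ[k] PowerSeries E} {D : Derivation k E E} (hτ : IsHT l τ D) (e : E) :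
    PowerSeries.constantCoeff (PowerSeries.map ι (tw l r τ e)) = ι e ^ l ^ r := by
  unfold tw
  rw [← PowerSeries.coeff_zero_eq_constantCoeff_apply, PowerSeries.coeff_map, RingHom.comp_apply,
    PowerSeries.coeff_map, PowerSeries.coeff_zero_eq_constantCoeff_apply, iterateFrobenius_def]
  have := hτ.const e
  rw [map_pow]
  congr 2

lemma liftP_map {l r : ℕ} {k : Type u} [Field k] [Algebra k E] [ExpChar E l] [ExpChar L l]
    {τ : E →ₐ[k] PowerSeries E} {D : Derivation k E E} (hτ : IsHT l τ D) (P : E[X]) :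
    (((P.map (tw l r τ)).map (PowerSeries.map ι)).map PowerSeries.constantCoeff) =
      (P.map ι).map (iterateFrobenius L l r) := by
  rw [Polynomial.map_map, Polynomial.map_map, Polynomial.map_map]
  congr 1
  ext e
  rw [RingHom.comp_apply, RingHom.comp_apply, lift_map ι hτ, RingHom.comp_apply,
    iterateFrobenius_def]

end

section

variable {L Λ : Type u} [Field L] [NormedField Λ] {ψ : PowerSeries L →+* Λ}

lemma ps_le (hψ : IsPs ψ) (f : PowerSeries L) : ‖ψ f‖ ≤ 1 := by
  have := (hψ f 0).2 (by simp)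
  simpa using this

lemma ps_const (hψ : IsPs ψ) (a : L) (ha : a ≠ 0) : ‖ψ (PowerSeries.C a)‖ = 1 := by
  have h1 := ps_le hψ (PowerSeries.C a)
  have h2 := ps_le hψ (PowerSeries.C a⁻¹)
  have h3 : ‖ψ (PowerSeries.C a)‖ * ‖ψ (PowerSeries.C a⁻¹)‖ = 1 := by
    rw [← norm_mul, ← map_mul, ← map_mul, mul_inv_cancel₀ ha, map_one, map_one, norm_one]
  have h0 := norm_nonneg (ψ (PowerSeries.C a))
  nlinarith [norm_nonneg (ψ (PowerSeries.C a⁻¹))]

lemma ps_lt (hψ : IsPs ψ) (f : PowerSeries L) (hf : PowerSeries.constantCoeff f = 0) :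
    ‖ψ f‖ < 1 := by
  have h1 := (hψ f 1).2 (by rw [pow_one]; exact PowerSeries.X_dvd_iff.2 hf)
  refine lt_of_le_of_lt h1 ?_
  rw [Real.exp_lt_one_iff]
  norm_num

end

end Pool.Agent.Q149.SP
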